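import Pool.Agent.H.MP_bff676_an.D

namespace Pool.Agent.Results.MP_bff676_an.Yes

open MeasureTheory Set Filter Topology Polynomial Pool.Agent.H.MP_bff676_an

theorem result (μ : Measure ℝ) [IsProbabilityMeasure μ]
    (hμ : ∀ x ∈ Icc (0 : ℝ) 1, μ (Icc 0 x) = ENNReal.ofReal (mink x))
    (p : ℕ → ℝ[X]) (hd : ∀ n, (p n).natDegree = n) (hl : ∀ n, 0 < (p n).leadingCoeff)
    (ho : ∀ m n, ∫ x, (p m).eval x * (p n).eval x ∂μ = if m = n then 1 else 0) (a b : ℕ → ℝ)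
    (h0 : X * p 0 = C (a 1) * p 1 + C (b 0) * p 0)
    (hr : ∀ n, X * p (n + 1) = C (a (n + 2)) * p (n + 2) + C (b (n + 1)) * p (n + 1) +
      C (a (n + 1)) * p n) :
    carrierCap μ = ENNReal.ofReal (1 / 4) ∧
      Tendsto (fun n : ℕ => (∏ i ∈ Finset.range n, a (i + 1)) ^ ((n : ℝ)⁻¹)) atTop (𝓝 (1 / 4)) := by
  refine ⟨IsMink.carrier hμ, ?_⟩
  simp only [prod_eq hd hl ho h0 hr]
  exact IsMink.lim hμ hd hl ho

end Pool.Agent.Results.MP_bff676_an.Yes
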